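import Pool.Agent.Q201.KT.Stab

set_option autoImplicit false

/-!
# Hearing the shape of almost every triangle is Lipschitz stable

For Lebesgue-almost every triple `p` of points of the plane the following holds. There are a number
`K` and constants `C` and `δ > 0` such that, if the first `K` Dirichlet eigenvalues of any triangle
differ by at most `ε ≤ δ` from those of the triangle with the vertices `p`, then its vertices can be
brought within distance `C ε` of the three points `p` by an isometry of the plane (`σ` matches the
vertices). In particular finitely many eigenvalues determine the triangle among all triangles.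
-/

open MeasureTheory Set
open Pool.Agent.W703.GP (dirichletEigenvalue)

namespace Pool.Agent.Results.MP_5b0138_an.TriangleStability

/-- `dirichletEigenvalue Ω k` is the `k`-th Dirichlet eigenvalue of `Ω`, `k = 1, 2, …`, with
multiplicity. -/
theorem result : ∀ᵐ p : Fin 3 → ℂ, ¬Collinear ℝ (range p) →
    ∃ (K : ℕ) (C δ : ℝ), 0 < δ ∧ ∀ q : Fin 3 → ℂ, ¬Collinear ℝ (range q) →
      ∀ ε : ℝ, 0 ≤ ε → ε ≤ δ →
        (∀ k, 1 ≤ k → k ≤ K → |dirichletEigenvalue (interior (convexHull ℝ (range q))) k -
          dirichletEigenvalue (interior (convexHull ℝ (range p))) k| ≤ ε) →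
        ∃ (φ : ℂ ≃ᵢ ℂ) (σ : Equiv.Perm (Fin 3)), ∀ i, ‖φ (q i) - p (σ i)‖ ≤ C * ε :=
  Pool.Agent.Q201.KT.stab

end Pool.Agent.Results.MP_5b0138_an.TriangleStability
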